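import Pool.Agent.H378R2.PS.Defs

set_option autoImplicit false
set_option maxHeartbeats 4000000

/-! # Project PS, task P4 (helper380): the survivors, with P1, P2, P3 as hypotheses -/

namespace Pool.Agent.H378R2.PS.P4

open Finset Pool.Agent.H378R2.PS

/-- the statement of P1 -/
def SieveFour : Prop := ∃ C : ℝ, 0 < C ∧ ∀ (a b R w : ℕ), 0 < a → 0 < b → 2 ≤ w →
    (w : ℝ) ≤ (R : ℝ) ^ (1 / 128 : ℝ) → ((a : ℝ) * b) ≤ (R : ℝ) ^ (1 / 4 : ℝ) →
    ∀ S : Finset ℕ, (∀ m ∈ S, 3 ≤ m ∧ m ≤ R ∧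
      (∃ q : ℕ, q.Prime ∧ m - 1 = a * q) ∧ (∃ q : ℕ, q.Prime ∧ m + 1 = b * q) ∧
      ∀ p : ℕ, p.Prime → 5 ≤ p → p ≤ w → ¬ (p ∣ (m - 2)) ∧ ¬ (p ∣ (m + 2))) →
    (S.card : ℝ) ≤ C * ((a : ℝ) / (Nat.totient a : ℝ)) ^ 4 * ((b : ℝ) / (Nat.totient b : ℝ)) ^ 4 *
      R / (a * b * ((Real.log R) ^ 2 * (Real.log w) ^ 2))

/-- the statement of P2 -/
def SumRatio4 : Prop := ∃ C : ℝ, 0 < C ∧ ∀ M : ℕ, 2 ≤ M →
    ∑ m ∈ Finset.Icc 1 M, ((m : ℝ) / (Nat.totient m : ℝ)) ^ 4 / m ≤ C * Real.log M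

open Classical in
/-- the statement of P3 -/
def Smooth8 : Prop := ∃ y₀ : ℝ, ∀ y : ℝ, y₀ ≤ y → ∀ L : ℕ, y ≤ L →
    (((Finset.Icc 1 L).filter (fun m : ℕ => ∀ p : ℕ, p.Prime → p ∣ m →
      Real.log p ≤ V1 y)).card : ℝ) ≤ L / (Real.log y) ^ 8

open Classical in
/-- P4 -/
theorem surv (h1 : SieveFour) (h2 : SumRatio4) (h3 : Smooth8) :
    ∃ C : ℝ, 0 < C ∧ ∃ y₀ : ℝ, ∀ y : ℝ, y₀ ≤ y → ∀ R : ℕ, y ≤ R →
    (R : ℝ) ≤ y * (Real.log y) ^ 5 → ∀ S : Finset ℕ, (∀ m ∈ S, 3 ≤ m ∧ m ≤ R ∧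
      (∀ p : ℕ, p.Prime → 5 ≤ p → Real.log p ≤ V1 y → ¬ (p ∣ (m - 2)) ∧ ¬ (p ∣ (m + 2))) ∧
      (∀ p : ℕ, p.Prime → V1 y < Real.log p → (p : ℝ) ≤ y → ¬ (p ∣ (m - 1)) ∧ ¬ (p ∣ (m + 1)))) →
    (S.card : ℝ) ≤ C * R * (Real.log (Real.log y)) ^ 4 /
        ((Real.log y) ^ 4 * (Real.log (Real.log (Real.log y))) ^ 2) := by
  obtain ⟨C₁, hC₁, hSF⟩ := h1
  obtain ⟨C₂, hC₂, hSR⟩ := h2
  obtain ⟨y₁, hsm⟩ := h3
  refine ⟨57600 * C₁ * C₂ ^ 2 + 3, by positivity, max y₁ (Real.exp (Real.exp 100)),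
    fun y hy R hyR hRy S hS => ?_⟩
  have hy' := (le_max_right _ _).trans hy
  have hy1 := (le_max_left _ _).trans hy
  have hy0 : 0 < y := (Real.exp_pos _).trans_le hy'
  have hL1' : Real.exp 100 ≤ Real.log y := by
    rw [← Real.log_exp (Real.exp 100)]; exact Real.log_le_log (Real.exp_pos _) hy'
  have hly : 0 < Real.log y := (Real.exp_pos _).trans_le hL1'
  have hVdef : V1 y = Real.log y * Real.log (Real.log (Real.log y)) /
    (20 * Real.log (Real.log y)) := rfl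
  set t := Real.log (Real.log y) with ht
  have htt : 100 ≤ t := by
    rw [← Real.log_exp 100]; exact Real.log_le_log (Real.exp_pos _) hL1'
  have hLe : Real.log y = Real.exp t := by rw [ht, Real.exp_log hly]
  have hye : y = Real.exp (Real.exp t) := by rw [← hLe, Real.exp_log hy0]
  set V0 := V1 y with hV0
  have ht0 : 0 < t := by linarith
  have hexp2 : t ^ 2 / 2 ≤ Real.exp t := by
    have := Real.quadratic_le_exp_of_nonneg ht0.le
    linarith
  have hly1 : 1 ≤ Real.log y := by rw [hLe]; nlinarith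
  have hlt1 : 1 ≤ Real.log t := by
    rw [Real.le_log_iff_exp_le ht0]
    have := Real.exp_one_lt_d9
    linarith
  have hlt0 : 0 < Real.log t := by linarith
  have hltt : Real.log t ≤ t := (Real.log_le_sub_one_of_pos ht0).trans (by linarith)
  have hV1 : 1 ≤ V0 := by
    rw [hVdef, le_div_iff₀ (by positivity), hLe]
    nlinarith [Real.exp_pos t]
  have hlog128 : 128 * Real.log t ≤ 20 * t := by
    have e1 : Real.log t = Real.log (t / 32) + Real.log 32 := by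
      rw [Real.log_div ht0.ne' (by norm_num)]; ring
    have e2 : Real.log (t / 32) ≤ t / 32 - 1 := Real.log_le_sub_one_of_pos (by positivity)
    have e3 : Real.log 32 = 5 * Real.log 2 := by
      rw [show (32 : ℝ) = 2 ^ 5 by norm_num, Real.log_pow]; norm_num
    have e4 := Real.log_two_lt_d9
    rw [e1, e3]; linarith
  have hV128 : V0 ≤ Real.log y * (1 / 128) := by
    rw [hVdef, div_le_iff₀ (by positivity)]
    nlinarith
  -- the sieving level
  set w : ℕ := ⌊Real.exp V0⌋₊ with hw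
  have hwle : (w : ℝ) ≤ Real.exp V0 := Nat.floor_le (Real.exp_pos _).le
  have hw2 : 2 ≤ w := by
    rw [hw, Nat.le_floor_iff (Real.exp_pos _).le]
    have := Real.add_one_le_exp V0
    push_cast; linarith
  have hw0' : (0 : ℝ) < w := by exact_mod_cast (by omega : 0 < w)
  have hlw : V0 / 2 ≤ Real.log w := by
    have h7 : Real.exp V0 < w + 1 := Nat.lt_floor_add_one _
    have h8 : (2 : ℝ) ≤ w := by exact_mod_cast hw2
    have h9 : Real.exp V0 ≤ (w : ℝ) ^ 2 := by nlinarith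
    have h10 := Real.log_le_log (Real.exp_pos _) h9
    rw [Real.log_exp, Real.log_pow] at h10
    push_cast at h10; linarith
  have hV0pos : 0 < V0 := by linarith
  have hR0 : (0 : ℝ) < R := by linarith
  have hlR : Real.log y ≤ Real.log R := Real.log_le_log hy0 hyR
  -- the cofactors
  set M : ℕ := ⌊2 * (Real.log y) ^ 5⌋₊ with hM
  have hMle : (M : ℝ) ≤ 2 * (Real.log y) ^ 5 := Nat.floor_le (by positivity)
  have hM2 : 2 ≤ M := by
    rw [hM, Nat.le_floor_iff (by positivity)]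
    have : (1 : ℝ) ≤ (Real.log y) ^ 5 := one_le_pow₀ hly1
    push_cast; linarith
  have hM0 : (0 : ℝ) < M := by exact_mod_cast (by omega : 0 < M)
  have hlM : Real.log M ≤ 6 * t := by
    have := Real.log_le_log hM0 hMle
    rw [Real.log_mul (by norm_num) (by positivity), Real.log_pow, ← ht] at this
    have e4 := Real.log_two_lt_d9
    push_cast at this; linarith
  have hlM0 : 0 ≤ Real.log M := Real.log_natCast_nonneg _
  have hMM : (M : ℝ) * M ≤ (R : ℝ) ^ (1 / 4 : ℝ) := by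
    have e1 : (M : ℝ) * M ≤ 4 * (Real.log y) ^ 10 := by
      calc (M : ℝ) * M ≤ (2 * (Real.log y) ^ 5) * (2 * (Real.log y) ^ 5) := by gcongr
        _ = _ := by ring
    have e2 : 4 * (Real.log y) ^ 10 ≤ (R : ℝ) ^ (1 / 4 : ℝ) := by
      rw [Real.rpow_def_of_pos hR0, ← Real.log_le_iff_le_exp (by positivity),
        Real.log_mul (by norm_num) (by positivity), Real.log_pow, ← ht]
      have e4 := Real.log_two_lt_d9
      have e5 : Real.log 4 = 2 * Real.log 2 := by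
        rw [show (4 : ℝ) = 2 ^ 2 by norm_num, Real.log_pow]; norm_num
      rw [e5]
      push_cast
      rw [hLe] at hlR
      nlinarith
    exact e1.trans e2
  have hwR : (w : ℝ) ≤ (R : ℝ) ^ (1 / 128 : ℝ) := by
    refine hwle.trans ?_
    rw [Real.rpow_def_of_pos hR0]
    apply Real.exp_le_exp.2
    linarith
  have hwp : ∀ p : ℕ, p.Prime → p ≤ w → Real.log p ≤ V0 := by
    intro p hp hpw
    have hp0 : (0 : ℝ) < p := by exact_mod_cast hp.pos
    rw [Real.log_le_iff_le_exp hp0]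
    exact (show (p : ℝ) ≤ w by exact_mod_cast hpw).trans hwle
  -- the pieces
  set A1 : Finset ℕ := (Finset.Icc 1 R).filter (fun m : ℕ => ∀ p : ℕ, p.Prime → p ∣ m →
      Real.log p ≤ V0) with hA1
  set A2 : Finset ℕ := (Finset.Icc 1 (R + 1)).filter (fun m : ℕ => ∀ p : ℕ, p.Prime → p ∣ m →
      Real.log p ≤ V0) with hA2
  set T : ℕ → ℕ → Finset ℕ := fun a b => S.filter (fun m => (∃ q : ℕ, q.Prime ∧ m - 1 = a * q) ∧
    (∃ q : ℕ, q.Prime ∧ m + 1 = b * q)) with hT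
  have hsub : S ⊆ (A1.image (fun m => m + 1) ∪ A2.image (fun m => m - 1)) ∪
      (Finset.Icc 1 M).biUnion (fun a => (Finset.Icc 1 M).biUnion (fun b => T a b)) := by
    intro m hm
    obtain ⟨hm3, hmR, hmA, hmB⟩ := hS m hm
    rw [mem_union, mem_union]
    by_cases hall1 : ∀ p : ℕ, p.Prime → p ∣ (m - 1) → Real.log p ≤ V0
    · left; left
      rw [mem_image]
      refine ⟨m - 1, ?_, by omega⟩
      rw [hA1, mem_filter, mem_Icc]
      exact ⟨⟨by omega, by omega⟩, hall1⟩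
    by_cases hall2 : ∀ p : ℕ, p.Prime → p ∣ (m + 1) → Real.log p ≤ V0
    · left; right
      rw [mem_image]
      refine ⟨m + 1, ?_, by omega⟩
      rw [hA2, mem_filter, mem_Icc]
      exact ⟨⟨by omega, by omega⟩, hall2⟩
    right
    push Not at hall1 hall2
    obtain ⟨q, hq, hd, hlq⟩ := hall1
    obtain ⟨q', hq', hd', hlq'⟩ := hall2
    have hqy : y < q := by
      by_contra hcon
      push Not at hcon
      exact (hmB q hq hlq hcon).1 hd
    have hqy' : y < q' := by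
      by_contra hcon
      push Not at hcon
      exact (hmB q' hq' hlq' hcon).2 hd'
    obtain ⟨a, ha⟩ := hd
    obtain ⟨b, hb⟩ := hd'
    have ha1 : 1 ≤ a := by
      rcases Nat.eq_zero_or_pos a with rfl | h
      · simp at ha; omega
      · exact h
    have hb1 : 1 ≤ b := by
      rcases Nat.eq_zero_or_pos b with rfl | h
      · simp at hb
      · exact h
    have ha0 : (0 : ℝ) < a := by exact_mod_cast ha1
    have hb0 : (0 : ℝ) < b := by exact_mod_cast hb1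
    have hR1 : (R : ℝ) + 1 ≤ y * (2 * (Real.log y) ^ 5) := by
      have e1 : (1 : ℝ) ≤ R := by exact_mod_cast (by omega : 1 ≤ R)
      linarith
    have haM : a ≤ M := by
      rw [hM, Nat.le_floor_iff (by positivity)]
      have h7 : (q : ℝ) * a ≤ R + 1 := by exact_mod_cast (by omega : q * a ≤ R + 1)
      have h8 : y * a ≤ y * (2 * (Real.log y) ^ 5) := by
        calc y * a ≤ q * a := by gcongr
          _ ≤ R + 1 := h7
          _ ≤ _ := hR1
      exact le_of_mul_le_mul_left h8 hy0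
    have hbM : b ≤ M := by
      rw [hM, Nat.le_floor_iff (by positivity)]
      have h7 : (q' : ℝ) * b ≤ R + 1 := by exact_mod_cast (by omega : q' * b ≤ R + 1)
      have h8 : y * b ≤ y * (2 * (Real.log y) ^ 5) := by
        calc y * b ≤ q' * b := by gcongr
          _ ≤ R + 1 := h7
          _ ≤ _ := hR1
      exact le_of_mul_le_mul_left h8 hy0
    rw [mem_biUnion]
    refine ⟨a, mem_Icc.2 ⟨ha1, haM⟩, ?_⟩
    rw [mem_biUnion]
    refine ⟨b, mem_Icc.2 ⟨hb1, hbM⟩, ?_⟩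
    rw [hT]
    simp only
    rw [mem_filter]
    exact ⟨hm, ⟨q, hq, by rw [ha, mul_comm]⟩, ⟨q', hq', by rw [hb, mul_comm]⟩⟩
  -- the count for one pair
  have hTab : ∀ a ∈ Finset.Icc 1 M, ∀ b ∈ Finset.Icc 1 M, ((T a b).card : ℝ) ≤
      C₁ * R / ((Real.log y) ^ 2 * (V0 / 2) ^ 2) *
        ((((a : ℝ) / (Nat.totient a : ℝ)) ^ 4 / a) * (((b : ℝ) / (Nat.totient b : ℝ)) ^ 4 / b)) := by
    intro a ha b hb
    rw [mem_Icc] at ha hb
    have ha0 : (0 : ℝ) < a := by exact_mod_cast ha.1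
    have hb0 : (0 : ℝ) < b := by exact_mod_cast hb.1
    have hab : (a : ℝ) * b ≤ (R : ℝ) ^ (1 / 4 : ℝ) := by
      have e1 : (a : ℝ) ≤ M := by exact_mod_cast ha.2
      have e2 : (b : ℝ) ≤ M := by exact_mod_cast hb.2
      calc (a : ℝ) * b ≤ M * M := by gcongr
        _ ≤ _ := hMM
    have h8 := hSF a b R w ha.1 hb.1 hw2 hwR hab (T a b) (by
      intro m hm
      rw [hT] at hm
      simp only at hm
      rw [mem_filter] at hm
      obtain ⟨hm3, hmR, hmA, hmB⟩ := hS m hm.1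
      exact ⟨hm3, hmR, hm.2.1, hm.2.2, fun p hp hp5 hpw => hmA p hp hp5 (hwp p hp hpw)⟩)
    refine h8.trans ?_
    calc C₁ * ((a : ℝ) / (Nat.totient a : ℝ)) ^ 4 * ((b : ℝ) / (Nat.totient b : ℝ)) ^ 4 *
      R / (a * b * ((Real.log R) ^ 2 * (Real.log w) ^ 2))
        ≤ C₁ * ((a : ℝ) / (Nat.totient a : ℝ)) ^ 4 * ((b : ℝ) / (Nat.totient b : ℝ)) ^ 4 *
      R / (a * b * ((Real.log y) ^ 2 * (V0 / 2) ^ 2)) := by gcongr
      _ = _ := by field_simp
  have hA1c : (A1.card : ℝ) ≤ R / (Real.log y) ^ 8 := hsm y hy1 R hyR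
  have hA2c : (A2.card : ℝ) ≤ 2 * R / (Real.log y) ^ 8 := by
    have e1 := hsm y hy1 (R + 1) (by push_cast; linarith)
    have e2 : (1 : ℝ) ≤ R := by
      have : 0 < R := by exact_mod_cast hR0
      exact_mod_cast this
    refine e1.trans ?_
    push_cast
    gcongr
    linarith
  have hcard : (S.card : ℝ) ≤ R / (Real.log y) ^ 8 + 2 * R / (Real.log y) ^ 8 +
      C₁ * R / ((Real.log y) ^ 2 * (V0 / 2) ^ 2) * (C₂ * (6 * t)) ^ 2 := by
    calc (S.card : ℝ)
        ≤ ((A1.card + A2.card + ∑ a ∈ Finset.Icc 1 M, ∑ b ∈ Finset.Icc 1 M, (T a b).card : ℕ) : ℝ) := by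
          apply Nat.cast_le.2
          refine (card_le_card hsub).trans ((card_union_le _ _).trans ?_)
          refine add_le_add ((card_union_le _ _).trans (add_le_add card_image_le card_image_le)) ?_
          exact card_biUnion_le.trans (sum_le_sum fun a _ => card_biUnion_le)
      _ = A1.card + A2.card + ∑ a ∈ Finset.Icc 1 M, ∑ b ∈ Finset.Icc 1 M, ((T a b).card : ℝ) := by
          push_cast; ring
      _ ≤ R / (Real.log y) ^ 8 + 2 * R / (Real.log y) ^ 8 +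
          ∑ a ∈ Finset.Icc 1 M, ∑ b ∈ Finset.Icc 1 M,
            C₁ * R / ((Real.log y) ^ 2 * (V0 / 2) ^ 2) *
        ((((a : ℝ) / (Nat.totient a : ℝ)) ^ 4 / a) *
          (((b : ℝ) / (Nat.totient b : ℝ)) ^ 4 / b)) := by
          gcongr with a ha b hb
          exact hTab a ha b hb
      _ = R / (Real.log y) ^ 8 + 2 * R / (Real.log y) ^ 8 +
          C₁ * R / ((Real.log y) ^ 2 * (V0 / 2) ^ 2) *
          (∑ a ∈ Finset.Icc 1 M, ((a : ℝ) / (Nat.totient a : ℝ)) ^ 4 / a) ^ 2 := by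
          congr 1
          have hsq : (∑ a ∈ Finset.Icc 1 M, ((a : ℝ) / (Nat.totient a : ℝ)) ^ 4 / a) ^ 2 =
              ∑ a ∈ Finset.Icc 1 M, ∑ b ∈ Finset.Icc 1 M,
                ((((a : ℝ) / (Nat.totient a : ℝ)) ^ 4 / a) *
                  (((b : ℝ) / (Nat.totient b : ℝ)) ^ 4 / b)) := by
            rw [sq, sum_mul_sum]
          rw [hsq, mul_sum]
          apply sum_congr rfl
          intro a _
          rw [mul_sum]
      _ ≤ _ := by
          gcongr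
          exact (hSR M hM2).trans (by gcongr)
  refine hcard.trans ?_
  have e1 : C₁ * R / ((Real.log y) ^ 2 * (V0 / 2) ^ 2) * (C₂ * (6 * t)) ^ 2 =
      57600 * C₁ * C₂ ^ 2 * R * t ^ 4 / ((Real.log y) ^ 4 * (Real.log t) ^ 2) := by
    rw [hVdef]; field_simp; ring
  have e2 : (R : ℝ) / (Real.log y) ^ 8 ≤ R * t ^ 4 / ((Real.log y) ^ 4 * (Real.log t) ^ 2) := by
    rw [div_le_div_iff₀ (by positivity) (by positivity)]
    have h7 : (Real.log t) ^ 2 ≤ (Real.log y) ^ 4 * t ^ 4 := by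
      have h8 : (1 : ℝ) ≤ (Real.log y) ^ 4 := one_le_pow₀ hly1
      have h9 : (1 : ℝ) ≤ t ^ 2 := one_le_pow₀ (by linarith)
      have h10 : (Real.log t) ^ 2 ≤ t ^ 2 := by gcongr
      calc (Real.log t) ^ 2 ≤ t ^ 2 := h10
        _ ≤ t ^ 2 * t ^ 2 := le_mul_of_one_le_right (by positivity) h9
        _ = 1 * t ^ 4 := by ring
        _ ≤ _ := by gcongr
    calc (R : ℝ) * ((Real.log y) ^ 4 * (Real.log t) ^ 2)
        ≤ R * ((Real.log y) ^ 4 * ((Real.log y) ^ 4 * t ^ 4)) := by gcongr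
      _ = R * t ^ 4 * (Real.log y) ^ 8 := by ring
  rw [e1]
  calc (R : ℝ) / (Real.log y) ^ 8 + 2 * R / (Real.log y) ^ 8 +
        57600 * C₁ * C₂ ^ 2 * R * t ^ 4 / ((Real.log y) ^ 4 * (Real.log t) ^ 2)
      = 3 * (R / (Real.log y) ^ 8) +
        57600 * C₁ * C₂ ^ 2 * R * t ^ 4 / ((Real.log y) ^ 4 * (Real.log t) ^ 2) := by ring
    _ ≤ 3 * (R * t ^ 4 / ((Real.log y) ^ 4 * (Real.log t) ^ 2)) +
        57600 * C₁ * C₂ ^ 2 * R * t ^ 4 / ((Real.log y) ^ 4 * (Real.log t) ^ 2) := by gcongr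
    _ = _ := by ring

end Pool.Agent.H378R2.PS.P4
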